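import Mathlib

/-!
# Effective Shafarevich conjecture for curves: definitions
-/

set_option autoImplicit false

namespace Pool.Agent.Y156.J

open CategoryTheory CategoryTheory.Limits

/-- Data: abelian varieties over `ℚ̄` with their dimensions and stable Faltings heights, smooth projective
connected curves over `ℚ̄` with their genera, Jacobians, Belyi degrees and points, faithful actions of
finite groups on curves and the quotient curves, and curves of genus at most one with finite sets of
points. The natural numbers `b` are the codes of the pairs `(K, T)` of a number field `K` and a finite set `T` of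
places of `K`. -/
structure ShafData where
  /-- the abelian varieties over `ℚ̄` -/
  A : Type
  [cat : Category.{0} A]
  [pre : Preadditive A]
  [bip : HasFiniteBiproducts A]
  /-- the dimension -/
  dim : A → ℕ
  /-- the stable Faltings height -/
  height : A → ℝ
  /-- the smooth projective connected curves over `ℚ̄` -/
  C : Type
  /-- the genus -/
  genus : C → ℕ
  /-- the Jacobian -/
  Jac : C → A
  /-- the Belyi degree: the least degree of a finite morphism to `ℙ¹` unramified outside `0, 1, ∞` -/
  belyi : C → ℕ
  /-- the points over `ℚ̄` -/
  Pt : C → Type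
  /-- the stable Arakelov height of a point -/
  ptHeight : ∀ {X : C}, Pt X → ℝ
  /-- for the code `b` of `(K, T)`: the curve is the base change to `ℚ̄` of a curve over `K` with good
  reduction outside `T` -/
  Model : ℕ → C → Prop
  /-- the faithful actions of a finite group on a curve -/
  Action : C → (G : Type) → [Group G] → [Fintype G] → Type
  /-- the quotient of the curve by a subgroup -/
  quot : ∀ {X : C} {G : Type} [Group G] [Fintype G], Action X G → Subgroup G → C
  /-- the action is free (so that the curve is an unramified Galois cover of the quotient) -/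
  Free : ∀ {X : C} {G : Type} [Group G] [Fintype G], Action X G → Prop
  /-- the pairs `(Q, Z)` of a curve `Q` over `ℚ̄` of genus at most one and a finite set `Z` of points of `Q`,
  not empty if the genus is one -/
  M : Type
  /-- the number of elements of `Z` -/
  size : M → ℕ
  /-- for the code `b` of `(K, T)`: the pair comes from a curve over `K` with a divisor, which extend to a
  smooth proper curve with an etale divisor at the finite places outside `T` -/
  MModel : ℕ → M → Prop
  /-- the least degree of a finite morphism `φ : Q → ℙ¹` unramified outside `0, 1, ∞` such that `φ (Z)` is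
  contained in `{0, 1, ∞}` -/
  mbelyi : M → ℕ
  /-- for an action of `G` on `X` such that `X / G` has genus at most one: `X / G` with the branch points -/
  branch : ∀ {X : C} {G : Type} [Group G] [Fintype G], Action X G → M

attribute [instance] ShafData.cat ShafData.pre ShafData.bip

variable (D : ShafData)

/-- The effective Shafarevich conjecture for the curves with the property `P`: the stable Faltings heights
of the Jacobians of the curves over `K` of genus `g ≥ 1` with good reduction outside `T` and with the
property `P` are bounded by a computable function of the code `b` of `(K, T)` and of `g`. -/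
def EffBounded (P : D.C → Prop) : Prop :=
  ∃ c : ℕ → ℕ → ℕ, Computable₂ c ∧ ∀ (b : ℕ) (X : D.C), P X → D.Model b X → 1 ≤ D.genus X →
    D.height (D.Jac X) ≤ c b (D.genus X)

/-- The small points conjecture for the curves with the property `P`: the curves over `K` of genus `g ≥ 2`
with good reduction outside `T` and with the property `P` have a point over `ℚ̄` of a stable Arakelov
height bounded by a computable function of the code `b` of `(K, T)` and of `g`. -/
def SmallPoints (P : D.C → Prop) : Prop :=
  ∃ c : ℕ → ℕ → ℕ, Computable₂ c ∧ ∀ (b : ℕ) (X : D.C), P X → D.Model b X → 2 ≤ D.genus X →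
    ∃ x : D.Pt X, D.ptHeight x ≤ c b (D.genus X)

/-- The Belyi degrees of the curves over `K` of genus `g ≥ 1` with good reduction outside `T` and with the
property `P` are bounded by a computable function of the code `b` of `(K, T)` and of `g`. -/
def BelyiBounded (P : D.C → Prop) : Prop :=
  ∃ c : ℕ → ℕ → ℕ, Computable₂ c ∧ ∀ (b : ℕ) (X : D.C), P X → D.Model b X → 1 ≤ D.genus X →
    D.belyi X ≤ c b (D.genus X)

/-- The curve over `ℚ̄` is a Galois cover of a curve of genus at most one. -/
def IsGaloisCover (X : D.C) : Prop :=
  ∃ (G : Type) (_ : Group G) (_ : Fintype G) (a : D.Action X G), D.genus (D.quot a ⊤) ≤ 1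

/-- The curve over `ℚ̄` is an unramified Galois cover of a curve with the property `P`. -/
def IsEtaleCover (P : D.C → Prop) (X : D.C) : Prop :=
  ∃ (G : Type) (_ : Group G) (_ : Fintype G) (a : D.Action X G), D.Free a ∧ P (D.quot a ⊤)

/-- The classes of curves that are obtained from the Galois covers of curves of genus at most one by `n`
unramified Galois covers. -/
def EtaleTower : ℕ → D.C → Prop
  | 0 => fun X => IsGaloisCover D X ∨ D.genus X = 1
  | n + 1 => fun X => EtaleTower n X ∨ (2 ≤ D.genus X ∧ IsEtaleCover D (EtaleTower n) X)

/-- There are a finite group `G` acting on `X` over `ℚ̄` and subgroups `H j` of `G`, `j ∈ ι`, such that the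
quotients `X / H j` have the property `P` or the genus zero, and the multiplication by some `N ≥ 1` on the
Jacobian of `X` is a sum of endomorphisms that factor over the Jacobians of the curves `X / H j`; here
`N` and the number of elements of `ι` are at most `R (genus X)`. -/
def Decomposed (P : D.C → Prop) (R : ℕ → ℕ) (X : D.C) : Prop :=
  ∃ (G : Type) (_ : Group G) (_ : Fintype G) (a : D.Action X G) (ι : Type) (_ : Fintype ι)
    (H : ι → Subgroup G) (u : ∀ j, D.Jac X ⟶ D.Jac (D.quot a (H j)))
    (v : ∀ j, D.Jac (D.quot a (H j)) ⟶ D.Jac X) (N : ℕ),
    0 < N ∧ N ≤ R (D.genus X) ∧ Fintype.card ι ≤ R (D.genus X) ∧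
    (∀ j, P (D.quot a (H j)) ∨ D.genus (D.quot a (H j)) = 0) ∧ ∑ j, u j ≫ v j = N • 𝟙 (D.Jac X)

/-- There are a finite group `G` acting on `X` over `ℚ̄` and at least two subgroups `H j ≠ 1` of `G`, `j ∈ ι`,
such that every element `g ≠ 1` of `G` lies in exactly one of them (a partition of `G`), and the curves
`X / H j` and `X / G` have the property `P` or the genus zero. -/
def Partitioned (P : D.C → Prop) (X : D.C) : Prop :=
  ∃ (G : Type) (_ : Group G) (_ : Fintype G) (a : D.Action X G) (ι : Type) (_ : Fintype ι)
    (H : ι → Subgroup G), 2 ≤ Fintype.card ι ∧ (∀ j, H j ≠ ⊥) ∧ (∀ g : G, g ≠ 1 → ∃! j, g ∈ H j) ∧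
    (∀ j, P (D.quot a (H j)) ∨ D.genus (D.quot a (H j)) = 0) ∧
    (P (D.quot a ⊤) ∨ D.genus (D.quot a ⊤) = 0)

/-- The classes of curves that are obtained from the curves in `EtaleTower m` by `n` steps: in each step,
the curves with a partitioned group action such that the quotients are in the previous class (or of
genus zero) are added. -/
def Tower (m : ℕ) : ℕ → D.C → Prop
  | 0 => EtaleTower D m
  | n + 1 => fun X => Tower m n X ∨ (2 ≤ D.genus X ∧ Partitioned D (Tower m n) X)

/-- Heights and dimensions of abelian varieties. `retract` follows from the bound of Raynaud for the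
difference of the heights of isogenous abelian varieties and from the lower bound of Bost for the height,
since `A × C` is isogenous to `B`, with a kernel of order at most `N ^ (2 dim A)`, for some `C`. -/
structure HasHeights : Prop where
  sum : ∀ {ι : Type} [Fintype ι] (f : ι → D.A), D.height (⨁ f) = ∑ j, D.height (f j)
  dim_sum : ∀ {ι : Type} [Fintype ι] (f : ι → D.A), D.dim (⨁ f) = ∑ j, D.dim (f j)
  zero : ∀ A : D.A, D.dim A = 0 → D.height A = 0 ∧ 𝟙 A = 0
  retract : ∃ c : ℕ, ∀ (A B : D.A) (u : A ⟶ B) (v : B ⟶ A) (N : ℕ), 0 < N → u ≫ v = N • 𝟙 A →
    D.height A ≤ D.height B + D.dim B * (Real.log N + c)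

open Classical in
/-- Jacobians and quotients of curves. `norm`: for an action of `G` on `X` the direct images
`Jac X → Jac (X / H)` and the inverse images `Jac (X / H) → Jac X` have the sum of the elements of `H`
as their composition. `card_le`: the bound of Hurwitz. `model_quot`: the action is defined over an
extension `K'` of `K` of bounded degree, unramified outside `T`, and the quotients have good reduction
outside the places over `T` and over the primes dividing the order of `G`; by the effective theorem of
Hermite and Minkowski the code of the new pair is bounded by a computable function. -/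
structure HasQuotients : Prop where
  dim_jac : ∀ X : D.C, D.dim (D.Jac X) = D.genus X
  genus_quot : ∀ {X : D.C} {G : Type} [Group G] [Fintype G] (a : D.Action X G) (H : Subgroup G),
    D.genus (D.quot a H) ≤ D.genus X
  card_le : ∀ {X : D.C} {G : Type} [Group G] [Fintype G] (_ : D.Action X G), 2 ≤ D.genus X →
    Fintype.card G ≤ 84 * (D.genus X - 1)
  norm : ∀ {X : D.C} {G : Type} [Group G] [Fintype G] (a : D.Action X G),
    ∃ (ρ : G → (D.Jac X ⟶ D.Jac X)) (push : ∀ H : Subgroup G, D.Jac X ⟶ D.Jac (D.quot a H))
      (pull : ∀ H : Subgroup G, D.Jac (D.quot a H) ⟶ D.Jac X), ρ 1 = 𝟙 (D.Jac X) ∧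
      ∀ H : Subgroup G, push H ≫ pull H = ∑ g : G, if g ∈ H then ρ g else 0
  model_quot : ∃ B : ℕ → ℕ → ℕ, Computable₂ B ∧
    ∀ {b : ℕ} {X : D.C} {G : Type} [Group G] [Fintype G] (a : D.Action X G), D.Model b X →
      2 ≤ D.genus X → ∃ b' ≤ B b (D.genus X), ∀ H : Subgroup G, D.Model b' (D.quot a H)

/-- Belyi degrees. `tame`: if `X / G` has genus at most one, `X` has good reduction at a place of `K` that
does not divide the order of `G`, and the genus is at least two, then the action extends to the smooth
model, the quotient is smooth and the branch divisor is etale (tame ramification). `size_le`: the formula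
of Riemann and Hurwitz. `effective`: the effective finiteness of the curves of genus zero with an etale
divisor (Evertse and Gyory, binary forms of given discriminant) and of the curves of genus one with a
nonempty etale divisor (Coates, and Baker and Coates, integral points) over the `T`-integers, with the
effective version of the theorem of Belyi (Khadjavi). `comp` and `comp_free`: composition of
`X → X / G` with a Belyi map. `genusOne`: the effective Shafarevich conjecture for the curves of genus one
(Coates). `height_le`: the bound of Javanpykar for the stable Faltings height in terms of the Belyi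
degree. -/
structure HasBelyi : Prop where
  tame : ∃ B : ℕ → ℕ → ℕ, Computable₂ B ∧
    ∀ {b : ℕ} {X : D.C} {G : Type} [Group G] [Fintype G] (a : D.Action X G), D.Model b X →
      2 ≤ D.genus X → D.genus (D.quot a ⊤) ≤ 1 → ∃ b' ≤ B b (D.genus X), D.MModel b' (D.branch a)
  size_le : ∀ {X : D.C} {G : Type} [Group G] [Fintype G] (a : D.Action X G), 2 ≤ D.genus X →
    D.genus (D.quot a ⊤) ≤ 1 → D.size (D.branch a) ≤ 2 * D.genus X + 2
  effective : ∃ E : ℕ → ℕ → ℕ, Computable₂ E ∧ ∀ (b : ℕ) (z : D.M), D.MModel b z →
    D.mbelyi z ≤ E b (D.size z)
  comp : ∀ {X : D.C} {G : Type} [Group G] [Fintype G] (a : D.Action X G), 2 ≤ D.genus X →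
    D.genus (D.quot a ⊤) ≤ 1 → D.belyi X ≤ Fintype.card G * D.mbelyi (D.branch a)
  comp_free : ∀ {X : D.C} {G : Type} [Group G] [Fintype G] (a : D.Action X G), 2 ≤ D.genus X →
    D.Free a → D.belyi X ≤ Fintype.card G * D.belyi (D.quot a ⊤) ∧ 2 ≤ D.genus (D.quot a ⊤)
  genusOne : BelyiBounded D fun X => D.genus X = 1
  height_le : ∃ J : ℕ → ℕ, Computable J ∧ ∀ X : D.C, 1 ≤ D.genus X →
    D.height (D.Jac X) ≤ J (D.belyi X)

/-- The properties that are used. -/
structure IsShaf : Prop where
  heights : HasHeights D
  quotients : HasQuotients D
  belyi : HasBelyi D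

/-- A bound for the stable Faltings height gives a point of small height (the formula of Noether, the
theorem of Zhang on the points of small height and the lower bound of Wilms for the invariant `δ` of
Faltings). -/
def HasSmallPoints : Prop :=
  ∃ s : ℕ → ℕ, Computable s ∧ ∀ (X : D.C) (n : ℕ), 2 ≤ D.genus X → D.height (D.Jac X) ≤ n →
    ∃ x : D.Pt X, D.ptHeight x ≤ 6 * n + s (D.genus X)

end Pool.Agent.Y156.J
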