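import Mathlib
import Pool.Agent.Y156.J.Defs

/-!
# Effective Shafarevich conjecture for abelian schemes over open subschemes of `Spec ℤ`: definitions
-/

set_option autoImplicit false

namespace Pool.Agent.Y156.J

open CategoryTheory CategoryTheory.Limits

/-- The data for curves together with abelian schemes over `ℤ[1/N]`. -/
structure AbData extends ShafData where
  /-- the abelian variety over `ℚ̄` is the base change of an abelian scheme over `ℤ[1/N]` -/
  AModel : ℕ → A → Prop
  /-- the code of the pair of `ℚ` and the set of the places that divide `N` or are infinite -/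
  code : ℕ → ℕ
  /-- the abelian variety over `ℚ̄` is the base change of an abelian scheme of product `GL_2`-type over
  `ℤ[1/N]` -/
  GL2 : ℕ → A → Prop

variable (T : AbData)

/-- The effective Shafarevich conjecture for the abelian schemes over `ℤ[1/N]` with the property `P N`: the
stable Faltings heights are bounded by a computable function of `N` and of the dimension. -/
def AbBounded (P : ℕ → T.A → Prop) : Prop :=
  ∃ c : ℕ → ℕ → ℕ, Computable₂ c ∧ ∀ (N : ℕ) (A : T.A), P N A → T.AModel N A → 1 ≤ T.dim A →
    T.height A ≤ c N (T.dim A)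

/-- The abelian variety `A` is, up to isogeny over `ℚ̄`, a direct factor of a product of at most
`R (dim A)` abelian varieties `F j` of dimension at most `R (dim A)`, each of which is the Jacobian of a
curve over `ℚ` with good reduction at the primes that do not divide `N` and with the property `P`, or an
abelian scheme over `ℤ[1/N]` with the property `Q N`. -/
def FactorOf (P : T.C → Prop) (Q : ℕ → T.A → Prop) (R : ℕ → ℕ) (N : ℕ) (A : T.A) : Prop :=
  ∃ (ι : Type) (_ : Fintype ι) (F : ι → T.A), Fintype.card ι ≤ R (T.dim A) ∧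
    (∀ j, T.dim (F j) ≤ R (T.dim A)) ∧
    (∀ j, (∃ X : T.C, P X ∧ T.Model (T.code N) X ∧ F j = T.Jac X) ∨ (Q N (F j) ∧ T.AModel N (F j))) ∧
    ∃ (u : A ⟶ ⨁ F) (v : (⨁ F) ⟶ A) (M : ℕ), 0 < M ∧ u ≫ v = M • 𝟙 A

/-- The properties that are used: those of the data for curves; Jacobians and products; the isogeny
theorem (Masser and Wuestholz, Gaudron and Remond; if `A` is a direct factor of `B` up to isogeny over
`ℚ̄`, then this is so with a multiplication by a number bounded by a computable function of the dimension
and of the height of `B`); and the theorem of von Kaenel for the product `GL_2`-type. -/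
structure IsAb : Prop where
  shaf : IsShaf T.toShafData
  code_computable : Computable T.code
  jac_model : ∀ (N : ℕ) (X : T.C), T.Model (T.code N) X → T.AModel N (T.Jac X)
  sum_model : ∀ {ι : Type} [Fintype ι] (N : ℕ) (F : ι → T.A), (∀ j, T.AModel N (F j)) →
    T.AModel N (⨁ F)
  isogeny : ∃ I : ℕ → ℕ → ℕ, Computable₂ I ∧ ∀ (N : ℕ) (A B : T.A), T.AModel N A → T.AModel N B →
    (∃ (u : A ⟶ B) (v : B ⟶ A) (M : ℕ), 0 < M ∧ u ≫ v = M • 𝟙 A) → ∀ n : ℕ, T.height B ≤ n →
      ∃ (u : A ⟶ B) (v : B ⟶ A) (M : ℕ), 0 < M ∧ M ≤ I (T.dim B) n ∧ u ≫ v = M • 𝟙 A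
  gl2 : AbBounded T T.GL2

end Pool.Agent.Y156.J
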