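import Mathlib
import Pool.Agent.Y156.J.Defs

/-!
# Effective Shafarevich conjecture for curves: decompositions of Jacobians
-/

set_option autoImplicit false
set_option linter.unusedSectionVars false

namespace Pool.Agent.Y156.J

open CategoryTheory CategoryTheory.Limits

section computable

/-- the sum of `c x.1 l` over `l ≤ x.2` -/
def isum (c : ℕ → ℕ → ℕ) (x : ℕ × ℕ) : ℕ := Nat.rec 0 (fun l acc => acc + c x.1 l) (x.2 + 1)

/-- the sum of `c k l` over `k ≤ B` and `l ≤ g` -/
def dsum (c : ℕ → ℕ → ℕ) (B g : ℕ) : ℕ := Nat.rec 0 (fun k acc => acc + isum c (k, g)) (B + 1)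

theorem le_rec (f : ℕ → ℕ) (n : ℕ) : ∀ k < n, f k ≤ Nat.rec 0 (fun k acc => acc + f k) n := by
  induction n with
  | zero => intro k hk; omega
  | succ n ih =>
    intro k hk
    change f k ≤ Nat.rec 0 (fun k acc => acc + f k) n + f n
    rcases Nat.lt_succ_iff_lt_or_eq.1 hk with h | rfl
    · exact (ih k h).trans (Nat.le_add_right _ _)
    · exact Nat.le_add_left _ _

theorem le_dsum (c : ℕ → ℕ → ℕ) {B g k l : ℕ} (hk : k ≤ B) (hl : l ≤ g) : c k l ≤ dsum c B g := by
  have h1 : c k l ≤ isum c (k, g) := le_rec (fun l => c k l) (g + 1) l (by omega)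
  exact h1.trans (le_rec (fun k => isum c (k, g)) (B + 1) k (by omega))

theorem isum_computable {c : ℕ → ℕ → ℕ} (hc : Computable₂ c) : Computable (isum c) := by
  have h : Computable₂ fun (x : ℕ × ℕ) (y : ℕ × ℕ) => y.2 + c x.1 y.1 :=
    (Primrec.nat_add.to_comp.comp (Computable.snd.comp Computable.snd)
      (hc.comp (Computable.fst.comp Computable.fst) (Computable.fst.comp Computable.snd))).to₂
  exact Computable.nat_rec (Computable.succ.comp Computable.snd) (Computable.const 0) h

theorem dsum_computable {c B : ℕ → ℕ → ℕ} (hc : Computable₂ c) (hB : Computable₂ B) :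
    Computable₂ fun b g => dsum c (B b g) g := by
  have h : Computable₂ fun (x : ℕ × ℕ) (y : ℕ × ℕ) => y.2 + isum c (y.1, x.2) :=
    (Primrec.nat_add.to_comp.comp (Computable.snd.comp Computable.snd)
      ((isum_computable hc).comp (Computable.pair (Computable.fst.comp Computable.snd)
        (Computable.snd.comp Computable.fst)))).to₂
  exact (Computable.nat_rec (f := fun x : ℕ × ℕ => B x.1 x.2 + 1) (g := fun _ => 0)
    (Computable.succ.comp (hB.comp Computable.fst Computable.snd)) (Computable.const 0) h).to₂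

theorem dsum_computable₂ {c : ℕ → ℕ → ℕ} (hc : Computable₂ c) : Computable₂ (dsum c) :=
  dsum_computable (B := fun b _ => b) hc Computable.fst

end computable

variable {D : ShafData} (hD : IsShaf D)

theorem EffBounded.mono {P Q : D.C → Prop} (h : EffBounded D Q) (hPQ : ∀ X, P X → Q X) :
    EffBounded D P := by
  obtain ⟨c, hc, h⟩ := h
  exact ⟨c, hc, fun b X hX => h b X (hPQ X hX)⟩

theorem EffBounded.or {P Q : D.C → Prop} (h : EffBounded D P) (h' : EffBounded D Q) :
    EffBounded D fun X => P X ∨ Q X := by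
  obtain ⟨c, hc, h⟩ := h
  obtain ⟨c', hc', h'⟩ := h'
  refine ⟨fun b g => c b g + c' b g, (Primrec.nat_add.to_comp.comp
    (hc.comp Computable.fst Computable.snd) (hc'.comp Computable.fst Computable.snd)).to₂,
    fun b X hX hb hg => ?_⟩
  push_cast
  rcases hX with hX | hX
  · have := h b X hX hb hg
    have : (0 : ℝ) ≤ c' b (D.genus X) := Nat.cast_nonneg _
    linarith
  · have := h' b X hX hb hg
    have : (0 : ℝ) ≤ c b (D.genus X) := Nat.cast_nonneg _
    linarith

theorem BelyiBounded.mono {P Q : D.C → Prop} (h : BelyiBounded D Q) (hPQ : ∀ X, P X → Q X) :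
    BelyiBounded D P := by
  obtain ⟨c, hc, h⟩ := h
  exact ⟨c, hc, fun b X hX => h b X (hPQ X hX)⟩

theorem BelyiBounded.or {P Q : D.C → Prop} (h : BelyiBounded D P) (h' : BelyiBounded D Q) :
    BelyiBounded D fun X => P X ∨ Q X := by
  obtain ⟨c, hc, h⟩ := h
  obtain ⟨c', hc', h'⟩ := h'
  refine ⟨fun b g => c b g + c' b g, (Primrec.nat_add.to_comp.comp
    (hc.comp Computable.fst Computable.snd) (hc'.comp Computable.fst Computable.snd)).to₂,
    fun b X hX hb hg => ?_⟩
  rcases hX with hX | hX
  · exact (h b X hX hb hg).trans (Nat.le_add_right _ _)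
  · exact (h' b X hX hb hg).trans (Nat.le_add_left _ _)

include hD

/-- A bound for the Belyi degree gives a bound for the height. -/
theorem effBounded_of_belyi {P : D.C → Prop} (hP : BelyiBounded D P) : EffBounded D P := by
  obtain ⟨c, hc, h⟩ := hP
  obtain ⟨J, hJ, hheight⟩ := hD.belyi.height_le
  have hJ2 : Computable₂ fun _ k : ℕ => J k := (hJ.comp Computable.snd).to₂
  have h1 : Computable fun x : ℕ × ℕ => c x.1 x.2 := hc
  refine ⟨fun b g => dsum (fun _ k => J k) 0 (c b g),
    ((dsum_computable₂ hJ2).comp (Computable.const 0) h1).to₂, fun b X hX hb hg => ?_⟩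
  have h5 : J (D.belyi X) ≤ dsum (fun _ k => J k) 0 (c b (D.genus X)) :=
    le_dsum (fun _ k => J k) le_rfl (h b X hX hb hg)
  have h7 : (J (D.belyi X) : ℝ) ≤ dsum (fun _ k => J k) 0 (c b (D.genus X)) := by
    exact_mod_cast h5
  exact (hheight X hg).trans h7

theorem effBounded_genusOne : EffBounded D fun X => D.genus X = 1 :=
  effBounded_of_belyi hD hD.belyi.genusOne

/-- The main estimate. -/
theorem effBounded_decomposed {P : D.C → Prop} (hP : EffBounded D P) {R : ℕ → ℕ}
    (hR : Computable R) : EffBounded D fun X => 2 ≤ D.genus X → Decomposed D P R X := by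
  obtain ⟨c, hc, hb⟩ := hP
  obtain ⟨cE, hcE, hE⟩ := effBounded_genusOne hD
  obtain ⟨B, hB, hmod⟩ := hD.quotients.model_quot
  obtain ⟨κ, hκ⟩ := hD.heights.retract
  refine ⟨fun b g => R g * dsum c (B b g) g + R g * (g * (R g + κ)) + cE b g, ?_, ?_⟩
  · have hRg : Computable fun x : ℕ × ℕ => R x.2 := hR.comp Computable.snd
    have h1 : Computable fun x : ℕ × ℕ => dsum c (B x.1 x.2) x.2 := dsum_computable hc hB
    have h2 : Computable fun x : ℕ × ℕ => R x.2 * dsum c (B x.1 x.2) x.2 :=
      Primrec.nat_mul.to_comp.comp hRg h1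
    have h3 : Computable fun x : ℕ × ℕ => R x.2 * (x.2 * (R x.2 + κ)) :=
      Primrec.nat_mul.to_comp.comp hRg (Primrec.nat_mul.to_comp.comp Computable.snd
        (Primrec.nat_add.to_comp.comp hRg (Computable.const κ)))
    have h4 : Computable fun x : ℕ × ℕ => cE x.1 x.2 := hcE
    exact (Primrec.nat_add.to_comp.comp (Primrec.nat_add.to_comp.comp h2 h3) h4).to₂
  · intro b X hX hbX hg
    have hcE0 : (0 : ℝ) ≤ cE b (D.genus X) := Nat.cast_nonneg _
    have hA0 : (0 : ℝ) ≤ ((R (D.genus X) * dsum c (B b (D.genus X)) (D.genus X) +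
      R (D.genus X) * (D.genus X * (R (D.genus X) + κ)) : ℕ) : ℝ) := Nat.cast_nonneg _
    rcases hg.lt_or_eq with h2 | h1
    · obtain ⟨G, iG, iF, a, ι, iι, H, u, v, N, hN, hNR, hιR, hH, huv⟩ := hX h2
      obtain ⟨b', hb', hmodel⟩ := hmod a hbX h2
      set g := D.genus X with hgdef
      set M := dsum c (B b g) g with hM
      have hone : ∀ j, D.height (D.Jac (D.quot a (H j))) ≤ M := by
        intro j
        rcases Nat.eq_zero_or_pos (D.genus (D.quot a (H j))) with h0 | h0
        · rw [(hD.heights.zero _ ((hD.quotients.dim_jac _).trans h0)).1]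
          exact Nat.cast_nonneg _
        · rcases hH j with h3 | h3
          · refine (hb b' _ h3 (hmodel _) h0).trans ?_
            exact_mod_cast le_dsum c hb' (hD.quotients.genus_quot a (H j))
          · omega
      have h5 := hκ (D.Jac X) (⨁ fun j => D.Jac (D.quot a (H j))) (biproduct.lift u)
        (biproduct.desc v) N hN (by rw [biproduct.lift_desc]; exact huv)
      rw [hD.heights.sum, hD.heights.dim_sum] at h5
      have h6 : ∑ j, D.height (D.Jac (D.quot a (H j))) ≤ (R g : ℝ) * M := by
        refine (Finset.sum_le_sum fun j _ => hone j).trans ?_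
        rw [Finset.sum_const, nsmul_eq_mul, Finset.card_univ]
        exact mul_le_mul_of_nonneg_right (by exact_mod_cast hιR) (Nat.cast_nonneg _)
      have h7 : (∑ j, D.dim (D.Jac (D.quot a (H j)))) ≤ R g * g := by
        refine (Finset.sum_le_sum fun j _ => (hD.quotients.dim_jac _).le.trans
          (hD.quotients.genus_quot a (H j))).trans ?_
        rw [Finset.sum_const, smul_eq_mul, Finset.card_univ]
        exact Nat.mul_le_mul_right _ hιR
      have h8 : Real.log N + κ ≤ (R g : ℝ) + κ := by
        have h9 : Real.log N ≤ N := (Real.log_le_self (Nat.cast_nonneg _))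
        have h10 : (N : ℝ) ≤ R g := by exact_mod_cast hNR
        linarith
      have h11 : (0 : ℝ) ≤ Real.log N + κ :=
        add_nonneg (Real.log_nonneg (by exact_mod_cast hN)) (Nat.cast_nonneg _)
      have h12 : ((∑ j, D.dim (D.Jac (D.quot a (H j))) : ℕ) : ℝ) * (Real.log N + κ) ≤
          ((R g : ℝ) * g) * (R g + κ) := by
        refine mul_le_mul ?_ h8 h11 (by positivity)
        exact_mod_cast h7
      have h13 : D.height (D.Jac X) ≤ (R g : ℝ) * M + ((R g : ℝ) * g) * (R g + κ) := by
        linarith [h5, h6, h12]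
      push_cast
      rw [← hM]
      linarith [h13, hcE0]
    · have h3 := hE b X h1.symm hbX hg
      push_cast at hA0 ⊢
      linarith

theorem partitioned_decomposed {P : D.C → Prop} {X : D.C} (h : Partitioned D P X)
    (hX : 2 ≤ D.genus X) : Decomposed D P (fun g => 84 * g) X := by
  classical
  obtain ⟨G, iG, iF, a, ι, iι, H, h2, hbot, huniq, hP, hPtop⟩ := h
  obtain ⟨ρ, push, pull, h1, hnorm⟩ := hD.quotients.norm a
  have hcard := hD.quotients.card_le a hX
  have hne : ∀ j, ∃ g : G, g ∈ H j ∧ g ≠ 1 := fun j => (Subgroup.ne_bot_iff_exists_ne_one.1 (hbot j)).elim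
    fun g hg => ⟨g.1, g.2, fun h => hg (Subtype.ext h)⟩
  choose t ht ht1 using hne
  have hinj : Function.Injective fun j => (some (t j) : Option G) := by
    intro i j hij
    have hij' : t i = t j := Option.some_injective _ hij
    exact (huniq (t i) (ht1 i)).unique (ht i) (hij' ▸ ht j)
  have hlt : Fintype.card ι < Fintype.card G := by
    have hinj' : Function.Injective t := fun i j hij => hinj (congrArg some hij)
    refine Fintype.card_lt_of_injective_of_notMem t hinj' (b := 1) ?_
    rintro ⟨j, hj⟩
    exact ht1 j hj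
  have key : ∑ j, push (H j) ≫ pull (H j) = (Fintype.card ι - 1) • 𝟙 (D.Jac X) + push ⊤ ≫ pull ⊤ := by
    have e1 : ∑ j, push (H j) ≫ pull (H j) = ∑ j, ∑ g : G, if g ∈ H j then ρ g else 0 := by
      refine Finset.sum_congr rfl fun j _ => ?_
      rw [hnorm]
    have e2 : push ⊤ ≫ pull ⊤ = ∑ g : G, ρ g := by
      rw [hnorm]
      exact Finset.sum_congr rfl fun g _ => if_pos (Subgroup.mem_top g)
    have e3 : ∀ g : G, ∑ j, (if g ∈ H j then ρ g else 0) =
        (if g = 1 then (Fintype.card ι - 1) • ρ g else 0) + ρ g := by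
      intro g
      by_cases hg : g = 1
      · subst hg
        rw [Finset.sum_congr rfl fun j _ => if_pos (one_mem (H j)), Finset.sum_const, if_pos rfl,
          Finset.card_univ]
        obtain ⟨n, hn⟩ : ∃ n, Fintype.card ι = n + 1 := ⟨Fintype.card ι - 1, by omega⟩
        rw [hn, Nat.add_sub_cancel, succ_nsmul]
      · rw [if_neg hg, zero_add]
        obtain ⟨j, hj, hj'⟩ := huniq g hg
        rw [Finset.sum_eq_single j (fun i _ hi => if_neg fun h => hi (hj' i h))
          (fun h => absurd (Finset.mem_univ j) h), if_pos hj]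
    rw [e1, Finset.sum_comm, Finset.sum_congr rfl fun g _ => e3 g, Finset.sum_add_distrib,
      Finset.sum_ite_eq' Finset.univ (1 : G), if_pos (Finset.mem_univ _), e2, h1]
  refine ⟨G, iG, iF, a, Option ι, inferInstance, fun j => j.elim ⊤ H,
    fun j => match j with
      | none => -push ⊤
      | some j => push (H j),
    fun j => match j with
      | none => pull ⊤
      | some j => pull (H j), Fintype.card ι - 1, by omega, ?_, ?_, ?_, ?_⟩
  · change Fintype.card ι - 1 ≤ 84 * D.genus X
    omega
  · rw [Fintype.card_option]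
    change Fintype.card ι + 1 ≤ 84 * D.genus X
    omega
  · intro j
    cases j with
    | none => exact hPtop
    | some j => exact hP j
  · rw [Fintype.sum_option]
    change (-push ⊤) ≫ pull ⊤ + ∑ j, push (H j) ≫ pull (H j) = _
    rw [key, Preadditive.neg_comp]
    abel

/-- Closure under partitions. -/
theorem effBounded_partitioned {P : D.C → Prop} (hP : EffBounded D P) :
    EffBounded D fun X => 2 ≤ D.genus X → Partitioned D P X :=
  (effBounded_decomposed hD hP
    (Primrec.to_comp (Primrec.nat_mul.comp (Primrec.const 84) Primrec.id))).mono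
    fun _ hX hg => partitioned_decomposed hD (hX hg) hg

/-- Galois covers of curves of genus at most one. -/
theorem belyiBounded_galois : BelyiBounded D (IsGaloisCover D) := by
  obtain ⟨B, hB, htame⟩ := hD.belyi.tame
  obtain ⟨E, hE, heff⟩ := hD.belyi.effective
  obtain ⟨cE, hcE, hgen⟩ := hD.belyi.genusOne
  have hlin : Computable fun x : ℕ × ℕ => 84 * x.2 :=
    Primrec.nat_mul.to_comp.comp (Computable.const 84) Computable.snd
  have hlin2 : Computable fun x : ℕ × ℕ => 2 * x.2 + 2 :=
    Primrec.nat_add.to_comp.comp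
      (Primrec.nat_mul.to_comp.comp (Computable.const 2) Computable.snd) (Computable.const 2)
  have hm1 : Computable fun x : ℕ × ℕ => 84 * x.2 * dsum E (B x.1 x.2) (2 * x.2 + 2) :=
    Primrec.nat_mul.to_comp.comp hlin ((dsum_computable₂ hE).comp hB hlin2)
  refine ⟨fun b g => 84 * g * dsum E (B b g) (2 * g + 2) + cE b g, ?_, ?_⟩
  · have h2 : Computable fun x : ℕ × ℕ => cE x.1 x.2 := hcE
    exact (Primrec.nat_add.to_comp.comp hm1 h2).to₂
  · intro b X hX hbX hg
    rcases hg.lt_or_eq with h2 | h1
    · obtain ⟨G, iG, iF, a, ha⟩ := hX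
      obtain ⟨b', hb', hM⟩ := htame a hbX h2 ha
      have h3 : D.mbelyi (D.branch a) ≤ dsum E (B b (D.genus X)) (2 * D.genus X + 2) :=
        (heff b' _ hM).trans (le_dsum E hb' (hD.belyi.size_le a h2 ha))
      refine ((hD.belyi.comp a h2 ha).trans (Nat.mul_le_mul ?_ h3)).trans (Nat.le_add_right _ _)
      have := hD.quotients.card_le a h2
      omega
    · exact (hgen b X h1.symm hbX hg).trans (Nat.le_add_left _ _)

/-- Unramified Galois covers. -/
theorem belyiBounded_etale {P : D.C → Prop} (hP : BelyiBounded D P) :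
    BelyiBounded D fun X => 2 ≤ D.genus X → IsEtaleCover D P X := by
  obtain ⟨c, hc, hb⟩ := hP
  obtain ⟨B, hB, hmod⟩ := hD.quotients.model_quot
  obtain ⟨cE, hcE, hgen⟩ := hD.belyi.genusOne
  have hlin : Computable fun x : ℕ × ℕ => 84 * x.2 :=
    Primrec.nat_mul.to_comp.comp (Computable.const 84) Computable.snd
  have hm1 : Computable fun x : ℕ × ℕ => 84 * x.2 * dsum c (B x.1 x.2) x.2 :=
    Primrec.nat_mul.to_comp.comp hlin ((dsum_computable₂ hc).comp hB Computable.snd)
  refine ⟨fun b g => 84 * g * dsum c (B b g) g + cE b g, ?_, ?_⟩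
  · have h2 : Computable fun x : ℕ × ℕ => cE x.1 x.2 := hcE
    exact (Primrec.nat_add.to_comp.comp hm1 h2).to₂
  · intro b X hX hbX hg
    rcases hg.lt_or_eq with h2 | h1
    · obtain ⟨G, iG, iF, a, hfree, ha⟩ := hX h2
      obtain ⟨b', hb', hM⟩ := hmod a hbX h2
      obtain ⟨h4, h5⟩ := hD.belyi.comp_free a h2 hfree
      have h3 : D.belyi (D.quot a ⊤) ≤ dsum c (B b (D.genus X)) (D.genus X) :=
        (hb b' _ ha (hM ⊤) (by omega)).trans (le_dsum c hb' (hD.quotients.genus_quot a ⊤))
      refine (h4.trans (Nat.mul_le_mul ?_ h3)).trans (Nat.le_add_right _ _)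
      have := hD.quotients.card_le a h2
      omega
    · exact (hgen b X h1.symm hbX hg).trans (Nat.le_add_left _ _)

theorem belyiBounded_tower (n : ℕ) : BelyiBounded D (EtaleTower D n) := by
  induction n with
  | zero => exact (belyiBounded_galois hD).or hD.belyi.genusOne
  | succ n ih =>
    refine (ih.or (belyiBounded_etale hD ih)).mono fun X hX => ?_
    rcases hX with h | h
    · exact Or.inl h
    · exact Or.inr fun _ => h.2

/-- The effective Shafarevich conjecture for Galois covers of curves of genus at most one. -/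
theorem effBounded_galois : EffBounded D (IsGaloisCover D) :=
  effBounded_of_belyi hD (belyiBounded_galois hD)

theorem effBounded_tower (m n : ℕ) : EffBounded D (Tower D m n) := by
  induction n with
  | zero => exact effBounded_of_belyi hD (belyiBounded_tower hD m)
  | succ n ih =>
    refine (ih.or (effBounded_partitioned hD ih)).mono fun X hX => ?_
    rcases hX with h | h
    · exact Or.inl h
    · exact Or.inr fun _ => h.2

omit hD in
/-- The small points conjecture follows from the effective Shafarevich conjecture, class by class. -/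
theorem smallPoints_of (hs : HasSmallPoints D) {P : D.C → Prop} (hP : EffBounded D P) :
    SmallPoints D P := by
  obtain ⟨c, hc, h⟩ := hP
  obtain ⟨s, hs, h'⟩ := hs
  refine ⟨fun b g => 6 * c b g + s g, ?_, fun b X hX hb hg => ?_⟩
  · have h1 : Computable fun x : ℕ × ℕ => c x.1 x.2 := hc
    exact (Primrec.nat_add.to_comp.comp (Primrec.nat_mul.to_comp.comp (Computable.const 6) h1)
      (hs.comp Computable.snd)).to₂
  · obtain ⟨x, hx⟩ := h' X (c b (D.genus X)) hg (h b X hX hb (by omega))
    refine ⟨x, ?_⟩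
    push_cast
    exact hx

end Pool.Agent.Y156.J
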