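import Mathlib
import Pool.Agent.Y156.J.AbDefs
import Pool.Agent.Y156.J.Main

/-!
# Effective Shafarevich conjecture for abelian schemes over open subschemes of `Spec ℤ`
-/

set_option autoImplicit false

namespace Pool.Agent.Y156.J

open CategoryTheory CategoryTheory.Limits

variable {T : AbData} (hT : IsAb T)

include hT

/-- The effective Shafarevich conjecture for factors of products. -/
theorem abBounded_factorOf {P : T.C → Prop} {Q : ℕ → T.A → Prop}
    (hP : EffBounded T.toShafData P) (hQ : AbBounded T Q) {R : ℕ → ℕ} (hR : Computable R) :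
    AbBounded T (FactorOf T P Q R) := by
  obtain ⟨c, hc, hb⟩ := hP
  obtain ⟨c', hc', hb'⟩ := hQ
  obtain ⟨I, hI, hiso⟩ := hT.isogeny
  obtain ⟨κ, hκ⟩ := hT.shaf.heights.retract
  let M1 : ℕ × ℕ → ℕ := fun x => dsum c (T.code x.1) (R x.2) + dsum c' x.1 (R x.2)
  let n1 : ℕ × ℕ → ℕ := fun x => R x.2 * M1 x
  let d1 : ℕ × ℕ → ℕ := fun x => R x.2 * R x.2
  have hRg : Computable fun x : ℕ × ℕ => R x.2 := hR.comp Computable.snd
  have hM1 : Computable M1 := Primrec.nat_add.to_comp.comp
    ((dsum_computable₂ hc).comp (hT.code_computable.comp Computable.fst) hRg)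
    ((dsum_computable₂ hc').comp Computable.fst hRg)
  have hn1 : Computable n1 := Primrec.nat_mul.to_comp.comp hRg hM1
  have hd1 : Computable d1 := Primrec.nat_mul.to_comp.comp hRg hRg
  have hI1 : Computable fun x => dsum I (d1 x) (n1 x) := (dsum_computable₂ hI).comp hd1 hn1
  refine ⟨fun N g => n1 (N, g) + d1 (N, g) * (dsum I (d1 (N, g)) (n1 (N, g)) + κ), ?_, ?_⟩
  · exact (Primrec.nat_add.to_comp.comp hn1 (Primrec.nat_mul.to_comp.comp hd1
      (Primrec.nat_add.to_comp.comp hI1 (Computable.const κ)))).to₂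
  · rintro N A ⟨ι, iι, F, hιR, hdim, hF, u₀, v₀, M₀, hM₀, huv₀⟩ hA hg
    set g := T.dim A with hgdef
    have hmodel : ∀ j, T.AModel N (F j) := by
      intro j
      rcases hF j with ⟨X, _, hX, hj⟩ | h
      · rw [hj]
        exact hT.jac_model N X hX
      · exact h.2
    have hone : ∀ j, T.height (F j) ≤ (M1 (N, g) : ℝ) := by
      intro j
      rcases Nat.eq_zero_or_pos (T.dim (F j)) with h0 | h0
      · rw [(hT.shaf.heights.zero _ h0).1]
        exact Nat.cast_nonneg _
      · rcases hF j with ⟨X, hPX, hX, hj⟩ | h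
        · have h1 : T.dim (F j) = T.genus X := by rw [hj]; exact hT.shaf.quotients.dim_jac X
          rw [hj]
          refine (hb (T.code N) X hPX hX (by omega)).trans ?_
          have h2 : c (T.code N) (T.genus X) ≤ dsum c (T.code N) (R g) :=
            le_dsum c le_rfl (h1 ▸ hdim j)
          exact_mod_cast h2.trans (Nat.le_add_right _ _)
        · refine (hb' N (F j) h.1 h.2 h0).trans ?_
          have h2 : c' N (T.dim (F j)) ≤ dsum c' N (R g) := le_dsum c' le_rfl (hdim j)
          exact_mod_cast h2.trans (Nat.le_add_left _ _)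
    have hsum : T.height (⨁ F) ≤ (n1 (N, g) : ℝ) := by
      rw [hT.shaf.heights.sum]
      refine (Finset.sum_le_sum fun j _ => hone j).trans ?_
      rw [Finset.sum_const, nsmul_eq_mul, Finset.card_univ]
      have : ((Fintype.card ι * M1 (N, g) : ℕ) : ℝ) ≤ (n1 (N, g) : ℝ) := by
        exact_mod_cast Nat.mul_le_mul_right _ hιR
      push_cast at this
      exact this
    have hd : T.dim (⨁ F) ≤ d1 (N, g) := by
      rw [hT.shaf.heights.dim_sum]
      refine (Finset.sum_le_sum fun j _ => hdim j).trans ?_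
      rw [Finset.sum_const, smul_eq_mul, Finset.card_univ]
      exact Nat.mul_le_mul_right _ hιR
    obtain ⟨u, v, M, hM, hMI, huv⟩ := hiso N A (⨁ F) hA (hT.sum_model N F hmodel)
      ⟨u₀, v₀, M₀, hM₀, huv₀⟩ (n1 (N, g)) hsum
    have h3 : M ≤ dsum I (d1 (N, g)) (n1 (N, g)) := hMI.trans (le_dsum I hd le_rfl)
    have h4 := hκ A (⨁ F) u v M hM huv
    have h5 : Real.log M + κ ≤ (dsum I (d1 (N, g)) (n1 (N, g)) : ℝ) + κ := by
      have h9 : Real.log M ≤ M := Real.log_le_self (Nat.cast_nonneg _)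
      have h10 : (M : ℝ) ≤ dsum I (d1 (N, g)) (n1 (N, g)) := by exact_mod_cast h3
      linarith
    have h6 : (0 : ℝ) ≤ Real.log M + κ :=
      add_nonneg (Real.log_nonneg (by exact_mod_cast hM)) (Nat.cast_nonneg _)
    have h7 : (T.dim (⨁ F) : ℝ) * (Real.log M + κ) ≤
        (d1 (N, g) : ℝ) * ((dsum I (d1 (N, g)) (n1 (N, g)) : ℝ) + κ) :=
      mul_le_mul (by exact_mod_cast hd) h5 h6 (Nat.cast_nonneg _)
    push_cast
    linarith

end Pool.Agent.Y156.J
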